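import Mathlib
import Pool.Agent.V11161.BH.Field

set_option autoImplicit false

/-!
# MP_1a91b9_nt: rank and order zero over multiquadratic fields, for almost all configurations of the
ramified primes in a Bohr set

`E : y² = x³ + 5805 x - 285714` is a model of `X_0(14)`, without complex multiplication. For an odd
prime `q` let `q* = ± q ≡ 1 mod 4`. Let `m ≥ 1`, and let `c` be a class modulo `56 m`, prime to the
modulus, of primes that are inert in `ℚ(√2)` and in `ℚ(√-7)`.

For all `k` and `η > 0` there are `W`, a rank `d`, a radius `ρ > 0`, `b > 0`, `C` and `X₀`, which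
depend only on `k`, `η` and `m`, such that for every `c` and every `X ≥ X₀` there are frequencies
`θ_1, …, θ_d` with the following property. Let `B` be the Bohr set of all integers `|h| ≤ X` with
`|exp (2 π i h θ_j) - 1| ≤ ρ` for all `j`; it has at least `b X` elements. For at least
`(1 - η) |B| ^ k` of the vectors `(h_1, …, h_k)` in `B ^ k` (the entries being distinct and not zero)
and for arbitrarily large `N`, the same for all these vectors, there are at least `N / (log N) ^ C`
primes `p ≤ N` of the class such that `p + W h_1, …, p + W h_k` are primes of the class and the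
Birch and Swinnerton-Dyer conjecture (continuation, and order of vanishing = rank) holds for `E` over
the field `K = ℚ(√p*, √(p + W h_1)*, …, √(p + W h_k)*)` of degree `2 ^ (k + 1)`, the group `E(K)` being
finite and `L(E / K, 1) ≠ 0`.

Proof. The weak conjecture for the twists of `X_0(14)` by the products of inert primes and the
comparison with the field `K` are in the starting library (`Pool.Agent.Y687.mainI`,
`Pool.Agent.Y687.MQ.mq_zero`). New here: the configurations of the primes, by the theorem on clusters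
of primes for linear forms (`Pool.Agent.V11161.CL`: of the numbers `c + W u`, `u ≤ X`, more than a
quarter form a set `U` almost all of whose `(k + 1)`-tuples are simultaneously prime, after a common
shift by a multiple of the modulus) and the energy increment argument (`Pool.Agent.V11161.BF`: almost
all vectors of a Bohr set of bounded rank are differences of these tuples).
-/

namespace Pool.Agent.Results.MP_1a91b9_nt.MultiquadraticBohrSets

open Filter NumberField IsDedekindDomain

/-- the curve `y² = x³ + 5805 x - 285714` over the field `K`, a model of `X_0(14)` -/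
def E (K : Type) [Field K] : WeierstrassCurve K :=
  { a₁ := 0, a₂ := 0, a₃ := 0, a₄ := ((5805 : ℤ) : K), a₆ := ((-285714 : ℤ) : K) }

/-- the number `q_v` of elements of the residue field of a finite place `v` of `K` -/
noncomputable def qv (K : Type) [Field K] (v : HeightOneSpectrum (𝓞 K)) : ℕ :=
  Nat.card (𝓞 K ⧸ v.asIdeal)

/-- `a_v = q_v + 1 - #E(k_v)`, that is `q_v` minus the number of affine points -/
noncomputable def av (K : Type) [Field K] (v : HeightOneSpectrum (𝓞 K)) : ℤ :=
  (qv K v : ℤ) - Nat.card {z : (𝓞 K ⧸ v.asIdeal) × (𝓞 K ⧸ v.asIdeal) //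
    z.2 ^ 2 = z.1 ^ 3 + ((5805 : ℤ) : 𝓞 K ⧸ v.asIdeal) * z.1 + ((-285714 : ℤ) : 𝓞 K ⧸ v.asIdeal)}

open Classical in
/-- `F` is entire and is, for `Re s > 3/2`, the `L`-function of `E` over `K` without the Euler factors
at the places that divide `2 (4 · 5805³ + 27 · 285714²) D` -/
def IsL (K : Type) [Field K] (D : ℤ) (F : ℂ → ℂ) : Prop :=
  Differentiable ℂ F ∧ ∀ s : ℂ, (3 : ℝ) / 2 < s.re →
    HasProd (fun v : HeightOneSpectrum (𝓞 K) =>
      if ((2 * (4 * 5805 ^ 3 + 27 * (-285714) ^ 2) * D : ℤ) : 𝓞 K) ∈ v.asIdeal then 1 else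
        (1 - (av K v : ℂ) * (qv K v : ℂ) ^ (-s) + (qv K v : ℂ) ^ (1 - 2 * s))⁻¹) (F s)

open Classical in
/-- the rank of the group of the points over `K` -/
noncomputable def rank (K : Type) [Field K] : ℕ := Module.finrank ℤ (E K).toAffine.Point

/-- The conjecture for `E` over `K` with order of vanishing zero: `E(K)` is finite, the `L`-function
(without the Euler factors at the places that divide `2 (4 · 5805³ + 27 · 285714²) D`, which do not
change the order at `s = 1`) is entire, it does not vanish at `s = 1`, and its order of vanishing is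
the rank. -/
def ConjZero (K : Type) [Field K] (D : ℤ) : Prop :=
  Finite (E K).toAffine.Point ∧ (∃ F : ℂ → ℂ, IsL K D F) ∧
    ∀ F : ℂ → ℂ, IsL K D F → F 1 ≠ 0 ∧ analyticOrderAt F 1 = rank K

/-- `x* = ± x`, congruent to `1` modulo `4` for odd `x` -/
def star (x : ℤ) : ℤ := if x % 4 = 1 then x else -x

/-- `K = ℚ(√d_1, …, √d_n)` -/
def IsMultiquadratic {n : ℕ} (d : Fin n → ℤ) (K : Type) [Field K] [NumberField K] : Prop :=
  ∃ x : Fin n → K, (∀ i, x i ^ 2 = (d i : K)) ∧ IntermediateField.adjoin ℚ (Set.range x) = ⊤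

/-- the numbers `p*, (p + W h_1)*, …, (p + W h_k)*` -/
def discs {k : ℕ} (W : ℕ) (h : Fin k → ℤ) (p : ℕ) : Fin (k + 1) → ℤ :=
  Fin.cons (star p) fun i => star (p + W * h i)

/-- the primes `p ≤ N` of the class of `c` modulo `M` for which all the `p + W h_i` are primes of the
class and the conjecture holds, with order zero, for `E` over the field
`K = ℚ(√p*, √(p + W h_1)*, …, √(p + W h_k)*)`, which has degree `2 ^ (k + 1)` -/
def goodPrimes {k : ℕ} (M c W : ℕ) (h : Fin k → ℤ) (N : ℕ) : Set ℕ :=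
  {p : ℕ | p ≤ N ∧ p.Prime ∧ p % M = c % M ∧
    (∀ i, ∃ q : ℕ, q.Prime ∧ q % M = c % M ∧ (q : ℤ) = p + W * h i) ∧
    ∀ (K : Type) [Field K] [NumberField K], IsMultiquadratic (discs W h p) K →
      Module.finrank ℚ K = 2 ^ (k + 1) ∧ ConjZero K (∏ i, discs W h p i)}

/-- the Bohr set of the frequencies `θ_j`, of radius `ρ` and width `X` -/
def bohrSet {d : ℕ} (θ : Fin d → ℝ) (ρ : ℝ) (X : ℕ) : Set ℤ :=
  {h : ℤ | |h| ≤ X ∧ ∀ j, ‖Complex.exp (2 * Real.pi * Complex.I * (h * θ j)) - 1‖ ≤ ρ}

open Pool.Agent.V11161.BH in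
theorem classPrimes_sub {k : ℕ} (m c W : ℕ) (h : Fin k → ℤ) (hh0 : ∀ i, h i ≠ 0)
    (hinj : Function.Injective h) (hW : 0 < W) (hc8 : c % 8 = 3 ∨ c % 8 = 5)
    (hc7 : c % 7 = 3 ∨ c % 7 = 5 ∨ c % 7 = 6) (N : ℕ) :
    classPrimes (56 * m) c W h N ⊆ goodPrimes (56 * m) c W h N := by
  classical
  rintro p ⟨h1, h2, h3, h4⟩
  refine ⟨h1, h2, h3, h4, ?_⟩
  have hmod : ∀ q : ℕ, q.Prime → q % (56 * m) = c % (56 * m) → Pool.Agent.Y687.InertT q := by
    intro q hq hqc
    have e1 : q % 56 = c % 56 := by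
      have h5 : (q % (56 * m)) % 56 = (c % (56 * m)) % 56 := by rw [hqc]
      rwa [Nat.mod_mul_right_mod, Nat.mod_mul_right_mod] at h5
    refine ⟨hq, ?_, ?_⟩
    · omega
    · omega
  choose q hq1 hq2 hq3 using h4
  set r : Fin (k + 1) → ℕ := Fin.cons p q with hr
  have hW' : (W : ℤ) ≠ 0 := by exact_mod_cast hW.ne'
  have hrI : ∀ i, Pool.Agent.Y687.InertT (r i) := by
    intro i
    refine Fin.cases ?_ (fun j => ?_) i
    · exact hmod p h2 h3
    · exact hmod (q j) (hq1 j) (hq2 j)
  have hrinj : Function.Injective r := by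
    intro i j
    refine Fin.cases ?_ (fun i' => ?_) i <;> refine Fin.cases ?_ (fun j' => ?_) j
    · intro _; rfl
    · intro hij
      exfalso
      have e : p = q j' := hij
      have e2 := hq3 j'
      rw [← e] at e2
      have e3 : (W : ℤ) * h j' = 0 := by linarith
      rcases mul_eq_zero.1 e3 with e4 | e4
      · exact hW' e4
      · exact hh0 j' e4
    · intro hij
      exfalso
      have e : q i' = p := hij
      have e2 := hq3 i'
      rw [e] at e2
      have e3 : (W : ℤ) * h i' = 0 := by linarith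
      rcases mul_eq_zero.1 e3 with e4 | e4
      · exact hW' e4
      · exact hh0 i' e4
    · intro hij
      have e : q i' = q j' := hij
      have e2 := hq3 i'
      have e3 := hq3 j'
      rw [e] at e2
      have e4 : (W : ℤ) * h i' = W * h j' := by linarith
      rw [hinj (mul_left_cancel₀ hW' e4)]
  have hd : ∀ i, discs W h p i = Pool.Agent.Y687.qs (r i) := by
    have hs : ∀ x : ℕ, star (x : ℤ) = Pool.Agent.Y687.qs x := by
      intro x
      unfold star Pool.Agent.Y687.qs
      by_cases hx : x % 4 = 1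
      · have hx' : (x : ℤ) % 4 = 1 := by omega
        rw [if_pos hx, if_pos hx']
      · have hx' : ¬ (x : ℤ) % 4 = 1 := by omega
        rw [if_neg hx, if_neg hx']
    intro i
    refine Fin.cases ?_ (fun j => ?_) i
    · exact hs p
    · show star (p + W * h j) = Pool.Agent.Y687.qs (q j)
      rw [← hq3 j]
      exact hs (q j)
  intro K _ _ hK
  obtain ⟨x, hx, hK⟩ := hK
  obtain ⟨hf1, ⟨F, hF, hF1⟩, hf3⟩ := field_inert r hrinj hrI K x (fun i => by rw [hx i, hd i]) hK
  have hprod : ∏ i, discs W h p i = ∏ i, Pool.Agent.Y687.qs (r i) :=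
    Finset.prod_congr rfl fun i _ => hd i
  rw [hprod]
  have hfin' : Finite (E K).toAffine.Point := hf3
  have hrk : rank K = 0 := by
    unfold rank
    rw [Module.finrank_eq_zero_iff_isTorsion]
    intro y
    obtain ⟨l, hl, hy⟩ := isOfFinAddOrder_iff_nsmul_eq_zero.1 (isOfFinAddOrder_of_finite y)
    refine ⟨⟨(l : ℤ), mem_nonZeroDivisors_of_ne_zero (by exact_mod_cast hl.ne')⟩, ?_⟩
    show (l : ℤ) • y = 0
    rw [natCast_zsmul]
    exact hy
  refine ⟨hf1, hfin', ⟨F, hF⟩, fun G hG => ?_⟩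
  have hG' : Pool.Agent.Y19.QT.IsLFunK K 5805 (-285714) (∏ i, Pool.Agent.Y687.qs (r i)) G := hG
  have hG1 : G 1 ≠ 0 := by
    rw [isLFunK_unique hG' hF]
    exact hF1
  refine ⟨hG1, ?_⟩
  rw [hrk]
  exact analyticOrderAt_eq_zero.2 (Or.inr hG1)

open Pool.Agent.V11161.BH in
theorem result (k : ℕ) (η : ℝ) (hη : 0 < η) (m : ℕ) (hm : 0 < m) :
    ∃ (W d C X₀ : ℕ) (ρ b : ℝ), 0 < W ∧ 0 < ρ ∧ 0 < b ∧
      ∀ c : ℕ, Nat.Coprime c (56 * m) → (c % 8 = 3 ∨ c % 8 = 5) →
        (c % 7 = 3 ∨ c % 7 = 5 ∨ c % 7 = 6) → ∀ X : ℕ, X₀ ≤ X →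
        ∃ (θ : Fin d → ℝ) (H : Finset (Fin k → ℤ)),
          b * X ≤ ((bohrSet θ ρ X).ncard : ℝ) ∧
          (∀ h ∈ H, (∀ i, h i ∈ bohrSet θ ρ X ∧ h i ≠ 0) ∧ Function.Injective h) ∧
          (1 - η) * ((bohrSet θ ρ X).ncard : ℝ) ^ k ≤ (H.card : ℝ) ∧
          ∃ᶠ N : ℕ in atTop, ∀ h ∈ H, (N : ℝ) / (Real.log N) ^ C ≤
            ((goodPrimes (56 * m) c W h N).ncard : ℝ) := by
  obtain ⟨W, d, C, X₀, ρ, b, hW, hρ, hb, hS⟩ := bohrAP k η hη (56 * m) (by omega)
  refine ⟨W, d, C, X₀, ρ, b, hW, hρ, hb, fun c hc hc8 hc7 X hX => ?_⟩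
  obtain ⟨θ, H, h1, h2, h3, h4⟩ := hS c hc X hX
  refine ⟨θ, H, h1, h2, h3, h4.mono fun N hN h hh => (hN h hh).trans ?_⟩
  rw [Nat.cast_le]
  refine Set.ncard_le_ncard (classPrimes_sub m c W h (fun i => ((h2 h hh).1 i).2) (h2 h hh).2 hW
    hc8 hc7 N) ((Set.finite_Iic N).subset fun p hp => hp.1)

end Pool.Agent.Results.MP_1a91b9_nt.MultiquadraticBohrSets
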