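import Pool.Agent.V11333.Central2
import Pool.Agent.TH942.ES.NF

/-!
# The original product of Birch and Swinnerton-Dyer over number fields, with bounds from one side

Let `E : y² = x³ + a x + b` be an elliptic curve over a number field `K`, `a, b ∈ 𝓞_K`. For the primes `v` not
dividing `6 (4 a³ + 27 b²)` let `N v` be the norm and `N_v + 1` the number of points modulo `v`, and let
`P(x) = ∏_{N v ≤ x} (N_v + 1) / N v`. Nothing is assumed about modularity; it is only assumed that the
Euler product `L(E, s)` over these primes has an analytic continuation along the REAL axis, to a neighbourhood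
of every real `s ≥ 1`. Let `r` be the order of vanishing at `s = 1` (it is finite, and the omitted Euler
factors do not change it).

1. The following are equivalent: `P(x)` is of the exact order `(log x)^A` for some real `A`; `P(x)` is of the
   exact order `(log x)^r`; `P(y) ≤ K P(x)` for `x ≤ y ≤ x²`, `x` large, for some `K`; `L(E, s)` has no real zeros
   `s > 1` and `P(x) ≤ K P(y)` for `x ≤ y ≤ x²`, `x` large, for some `K`. In particular a product of the exact
   order `(log x)^{rank}` gives the equality of the rank and the analytic rank.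
2. If `P(x) = O((log x)^A)` (one-sided bound), then `L(E, s)` has a holomorphic continuation without zeros to
   `Re s > 1`, `r ≤ A`, and `∫_0^U log P(e^u) du ~ r U log U`. For `A = r` moreover
   `∫_1^U |log P(e^u) - r log u| du = O(U)`.
3. If `P(x) ≥ c (log x)^A`, `c > 0`, and `L(E, s)` has no real zeros `s > 1`, then the same holds with `r ≥ A`.

Over `ℚ`, where `L(E, s)` is entire, the doubling conditions were treated in earlier hand-ins. Goldfeld's
theorem (1982) and its generalisations by K. Conrad and Kuo–Murty start from the two-sided asymptotic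
`P(x) ~ C (log x)^r`.
-/

set_option autoImplicit false

namespace Pool.Agent.Results.MP_1a91b9_nt.OneSidedNumberFields

open Filter Topology Set NumberField IsDedekindDomain MeasureTheory

variable {K : Type} [Field K] [NumberField K]

/-- The norm of `v`. -/
noncomputable def nrm (v : HeightOneSpectrum (𝓞 K)) : ℕ := Ideal.absNorm v.asIdeal

/-- `v` does not divide `6 (4 a³ + 27 b²)`. -/
def Good (a b : 𝓞 K) (v : HeightOneSpectrum (𝓞 K)) : Prop :=
  6 * (4 * a ^ 3 + 27 * b ^ 2) ∉ v.asIdeal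

/-- The number of affine points of `y² = x³ + a x + b` modulo `v`. -/
noncomputable def pts (a b : 𝓞 K) (v : HeightOneSpectrum (𝓞 K)) : ℕ :=
  Nat.card {P : (𝓞 K ⧸ v.asIdeal) × (𝓞 K ⧸ v.asIdeal) //
    P.2 ^ 2 = P.1 ^ 3 + Ideal.Quotient.mk v.asIdeal a * P.1 + Ideal.Quotient.mk v.asIdeal b}

/-- The Euler factor `(1 - a_v (N v)^{-s} + (N v)^{1 - 2s})⁻¹`, `a_v = N v - N_v`. -/
noncomputable def factor (a b : 𝓞 K) (v : HeightOneSpectrum (𝓞 K)) (s : ℂ) : ℂ :=
  (1 - ((nrm v : ℂ) - pts a b v) * (nrm v : ℂ) ^ (-s) + (nrm v : ℂ) ^ (1 - 2 * s))⁻¹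

/-- `log P(x)`, the sum of `log ((N_v + 1) / N v)` over the good `v` with `N v ≤ x`. -/
noncomputable def logP (a b : 𝓞 K) (x : ℝ) : ℝ :=
  ∑ᶠ (v : {v // Good a b v}) (_ : (nrm v.1 : ℝ) ≤ x),
    Real.log (((pts a b v.1 : ℝ) + 1) / nrm v.1)

/-- `H` is an analytic continuation of `L(E, s)` along the real axis: it is analytic at all real `x ≥ 1`
and equal to the Euler product at the real `x > 3/2`. -/
def IsRealContinuation (a b : 𝓞 K) (H : ℂ → ℂ) : Prop :=
  (∀ x : ℝ, 1 ≤ x → AnalyticAt ℂ H x) ∧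
    ∀ x : ℝ, 3 / 2 < x → HasProd (fun v : {v // Good a b v} => factor a b v.1 x) (H x)

/-- `L(E, s)` has a holomorphic continuation without zeros to the half plane `Re s > 1`. -/
def NoZeros (a b : 𝓞 K) : Prop :=
  ∃ G : ℂ → ℂ, (∀ s : ℂ, 1 < s.re → DifferentiableAt ℂ G s ∧ G s ≠ 0) ∧
    ∀ s : ℂ, 3 / 2 < s.re → HasProd (fun v : {v // Good a b v} => factor a b v.1 s) (G s)

/-- `P(x)` is of the exact order `(log x)^A`: `|log P(x) - A log log x| ≤ C` for large `x`. -/
def ExactOrder (a b : 𝓞 K) (A : ℝ) : Prop :=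
  ∃ C : ℝ, ∀ᶠ x : ℝ in atTop, |logP a b x - A * Real.log (Real.log x)| ≤ C

/-- `P(x) = O((log x)^A)`. -/
def UpperOrder (a b : 𝓞 K) (A : ℝ) : Prop :=
  ∃ C : ℝ, ∀ᶠ x : ℝ in atTop, logP a b x ≤ A * Real.log (Real.log x) + C

/-- `P(x) ≥ c (log x)^A` for large `x`, for some `c > 0`. -/
def LowerOrder (a b : 𝓞 K) (A : ℝ) : Prop :=
  ∃ C : ℝ, ∀ᶠ x : ℝ in atTop, A * Real.log (Real.log x) - C ≤ logP a b x

/-- `P(y) ≤ e^C P(x)` for `x ≤ y ≤ x²` and large `x`. -/
def UpperDoubling (a b : 𝓞 K) : Prop :=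
  ∃ C : ℝ, ∀ᶠ x : ℝ in atTop, ∀ y : ℝ, x ≤ y → y ≤ x ^ 2 → logP a b y ≤ logP a b x + C

/-- `P(x) ≤ e^C P(y)` for `x ≤ y ≤ x²` and large `x`. -/
def LowerDoubling (a b : 𝓞 K) : Prop :=
  ∃ C : ℝ, ∀ᶠ x : ℝ in atTop, ∀ y : ℝ, x ≤ y → y ≤ x ^ 2 → logP a b x ≤ logP a b y + C

/-- The mean value of `log P(e^u)` over `(0, U]` is asymptotic to `r log U`. -/
def MeanValue (a b : 𝓞 K) (r : ℝ) : Prop :=
  Tendsto (fun U : ℝ => (∫ u in Ioc 0 U, logP a b (Real.exp u)) / (U * Real.log U)) atTop (𝓝 r)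

/-- `∫_1^U |log P(e^u) - r log u| du = O(U)`. -/
def CloseInMean (a b : 𝓞 K) (r : ℝ) : Prop :=
  ∃ C : ℝ, ∀ U : ℝ, 1 ≤ U → ∫ u in Ioc 1 U, |logP a b (Real.exp u) - r * Real.log u| ≤ C * U

open Pool.Agent.TH942.ES Pool.Agent.V11333.OneSide in
theorem logP_eq (a b : 𝓞 K) (x : ℝ) : logP a b x =
    SP (fun v : {v // GoodV a b v} => Pool.Agent.H921R2.TatePole.nm v.1) (alV a b) x := by
  unfold logP SP
  refine finsum_congr fun v => finsum_congr fun _ => ?_
  rw [curve_cv]
  rfl

open Pool.Agent.TH942.ES in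
theorem prod_eq (a b : 𝓞 K) (s : ℂ) :
    (fun v : {v // Good a b v} => factor a b v.1 s) = fun v : {v // GoodV a b v} =>
      ∏ i, (1 - zv (fun v : {v // GoodV a b v} => Pool.Agent.H921R2.TatePole.nm v.1) (alV a b) v i *
        xv (fun v : {v // GoodV a b v} => Pool.Agent.H921R2.TatePole.nm v.1) v (s - 1))⁻¹ := by
  funext v
  rw [curve_factor, add_sub_cancel]
  rfl

open Pool.Agent.TH942.ES in
theorem hasProd_iff (a b : 𝓞 K) {s : ℂ} (hs : 3 / 2 < s.re) (y : ℂ) :
    HasProd (fun v : {v // Good a b v} => factor a b v.1 s) y ↔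
      y = LE (fun v : {v // GoodV a b v} => Pool.Agent.H921R2.TatePole.nm v.1) (alV a b) (s - 1) := by
  have h1 : 1 / 2 < (s - 1).re := by
    rw [Complex.sub_re, Complex.one_re]
    linarith
  have h2 := (curve_sys a b).hasProd h1
  rw [prod_eq]
  constructor
  · intro h
    exact h.tprod_eq.symm
  · rintro rfl
    unfold Pool.Agent.TH942.ES.LE
    rw [h2.tprod_eq]
    exact h2

open Pool.Agent.TH942.ES in
/-- The shifted function. -/
theorem shift {a b : 𝓞 K} {H : ℂ → ℂ} (h : IsRealContinuation a b H) :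
    (∀ x : ℝ, 0 ≤ x → AnalyticAt ℂ (fun s => H (s + 1)) x) ∧ ∀ x : ℝ, 1 / 2 < x → H ((x : ℂ) + 1) =
      LE (fun v : {v // GoodV a b v} => Pool.Agent.H921R2.TatePole.nm v.1) (alV a b) x := by
  obtain ⟨h1, h2⟩ := h
  refine ⟨fun x hx => ?_, fun x hx => ?_⟩
  · have e : AnalyticAt ℂ H ((x : ℂ) + 1) := by
      have := h1 (x + 1) (by linarith)
      push_cast at this
      exact this
    exact AnalyticAt.comp (g := H) (f := fun s : ℂ => s + 1) e (analyticAt_id.add analyticAt_const)
  · have e := h2 (x + 1) (by linarith)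
    rw [hasProd_iff a b (by rw [Complex.ofReal_re]; linarith)] at e
    push_cast at e
    rw [add_sub_cancel_right] at e
    exact e

/-- the order of vanishing of the shifted function -/
theorem shift_order {H : ℂ → ℂ} (h1 : AnalyticAt ℂ H 1) (r : ℕ) :
    analyticOrderAt H 1 = r ↔ analyticOrderAt (fun s => H (s + 1)) 0 = r := by
  have h0 : AnalyticAt ℂ (fun s => H (s + 1)) 0 :=
    AnalyticAt.comp (g := H) (f := fun s : ℂ => s + 1) (by simpa using h1)
      (analyticAt_id.add analyticAt_const)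
  constructor
  · intro h
    obtain ⟨g, hg, hg0, he⟩ := (h1.analyticOrderAt_eq_natCast).mp h
    refine (h0.analyticOrderAt_eq_natCast).mpr ⟨fun s => g (s + 1), ?_, by simpa using hg0, ?_⟩
    · exact AnalyticAt.comp (g := g) (f := fun s : ℂ => s + 1) (by simpa using hg)
        (analyticAt_id.add analyticAt_const)
    · have h3 : Tendsto (fun w : ℂ => w + 1) (𝓝 0) (𝓝 1) := by
        have : Continuous fun w : ℂ => w + 1 := by fun_prop
        simpa using this.tendsto 0
      filter_upwards [h3.eventually he] with w hw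
      rw [hw, add_sub_cancel_right, sub_zero]
  · intro h
    obtain ⟨g, hg, hg0, he⟩ := (h0.analyticOrderAt_eq_natCast).mp h
    refine (h1.analyticOrderAt_eq_natCast).mpr ⟨fun s => g (s - 1), ?_, by simpa using hg0, ?_⟩
    · exact AnalyticAt.comp (g := g) (f := fun s : ℂ => s - 1) (by simpa using hg)
        (analyticAt_id.sub analyticAt_const)
    · have h3 : Tendsto (fun w : ℂ => w - 1) (𝓝 1) (𝓝 0) := by
        have : Continuous fun w : ℂ => w - 1 := by fun_prop
        simpa using this.tendsto 1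
      filter_upwards [h3.eventually he] with w hw
      rw [sub_add_cancel, sub_zero] at hw
      exact hw

open Pool.Agent.TH942.ES Pool.Agent.V11333.OneSide in
theorem logP_exp (a b : 𝓞 K) : (fun u => logP a b (Real.exp u)) =
    st (fun v : {v // GoodV a b v} => Pool.Agent.H921R2.TatePole.nm v.1) (alV a b) := by
  funext t
  exact logP_eq a b (Real.exp t)

open Pool.Agent.TH942.ES Pool.Agent.V11333.OneSide Pool.Agent.W263.BSD in
/-- Convergence gives the continuation. -/
theorem noZeros_of (a b : 𝓞 K) (h : ∀ w > 0,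
    LInt (st (fun v : {v // GoodV a b v} => Pool.Agent.H921R2.TatePole.nm v.1) (alV a b)) w) :
    NoZeros a b := by
  obtain ⟨G, h1, h2⟩ := cont_of_st (curve_sys a b) le_rfl fun w hw => h w hw
  have h3 : ∀ s : ℂ, 3 / 2 < s.re → 1 / 2 < (s - 1).re := fun s hs => by
    rw [Complex.sub_re, Complex.one_re]
    linarith
  refine ⟨fun s => G (s - 1), fun s hs => ?_, fun s hs => ?_⟩
  · have h4 := h1 (s - 1) (Or.inl (by
      rw [Complex.sub_re, Complex.one_re]
      linarith))
    exact ⟨h4.1.comp s (by fun_prop), h4.2⟩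
  · rw [hasProd_iff a b hs]
    exact h2 (s - 1) (h3 s hs)

/-- from `x` to `u = log x` -/
theorem exp_iff {f : ℝ → Prop} : (∀ᶠ x : ℝ in atTop, f x) ↔ ∀ᶠ u : ℝ in atTop, f (Real.exp u) := by
  constructor
  · exact fun h => Real.tendsto_exp_atTop.eventually h
  · intro h
    have h1 := Real.tendsto_log_atTop.eventually h
    filter_upwards [h1, eventually_gt_atTop 0] with x hx h0
    rwa [Real.exp_log h0] at hx

theorem upperOrder_iff (a b : 𝓞 K) (A : ℝ) : UpperOrder a b A ↔
    ∃ C : ℝ, ∀ᶠ u : ℝ in atTop, logP a b (Real.exp u) ≤ A * Real.log u + C := by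
  unfold UpperOrder
  refine exists_congr fun C => ?_
  rw [exp_iff]
  simp only [Real.log_exp]

theorem lowerOrder_iff (a b : 𝓞 K) (A : ℝ) : LowerOrder a b A ↔
    ∃ C : ℝ, ∀ᶠ u : ℝ in atTop, A * Real.log u - C ≤ logP a b (Real.exp u) := by
  unfold LowerOrder
  refine exists_congr fun C => ?_
  rw [exp_iff]
  simp only [Real.log_exp]

/-- the doubling condition in the logarithmic variable -/
theorem doubling {f : ℝ → ℝ} (h : ∃ C : ℝ, ∀ᶠ x : ℝ in atTop, ∀ y : ℝ, x ≤ y → y ≤ x ^ 2 →
    f y ≤ f x + C) : ∃ K u0 : ℝ, 0 ≤ K ∧ 1 ≤ u0 ∧ ∀ u v, u0 ≤ u → u ≤ v → v ≤ 2 * u →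
      f (Real.exp v) ≤ f (Real.exp u) + K := by
  obtain ⟨C, hC⟩ := h
  obtain ⟨U, hU⟩ := eventually_atTop.mp (exp_iff.mp hC)
  refine ⟨|C|, max U 1, abs_nonneg C, le_max_right _ _, fun u v h1 h2 h3 => ?_⟩
  have h4 := hU u ((le_max_left _ _).trans h1) (Real.exp v) (Real.exp_le_exp.mpr h2) (by
    rw [← Real.exp_nat_mul]
    exact Real.exp_le_exp.mpr (by push_cast; linarith))
  have := le_abs_self C
  linarith

/-- the exact order implies the two doubling conditions -/
theorem doubling_of_order {a b : 𝓞 K} {A : ℝ} (h : ExactOrder a b A) :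
    UpperDoubling a b ∧ LowerDoubling a b := by
  obtain ⟨C, hC⟩ := h
  obtain ⟨X, hX⟩ := eventually_atTop.mp hC
  have key : ∀ᶠ x : ℝ in atTop, ∀ y : ℝ, x ≤ y → y ≤ x ^ 2 →
      |logP a b y - logP a b x| ≤ 2 * C + |A| * Real.log 2 := by
    filter_upwards [eventually_ge_atTop (max X (Real.exp 1))] with x hx y h1 h2
    have hx1 : Real.exp 1 ≤ x := (le_max_right _ _).trans hx
    have hx0 : 0 < x := lt_of_lt_of_le (Real.exp_pos 1) hx1
    have hl : 1 ≤ Real.log x := by rwa [Real.le_log_iff_exp_le hx0]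
    have e1 := hX x ((le_max_left _ _).trans hx)
    have e2 := hX y (((le_max_left _ _).trans hx).trans h1)
    have hlx : Real.log x ≤ Real.log y := Real.log_le_log hx0 h1
    have hly : Real.log y ≤ 2 * Real.log x := by
      have := Real.log_le_log (by linarith) h2
      rwa [Real.log_pow] at this
    have e3 : Real.log (Real.log x) ≤ Real.log (Real.log y) := Real.log_le_log (by linarith) hlx
    have e4 : Real.log (Real.log y) ≤ Real.log 2 + Real.log (Real.log x) := by
      rw [← Real.log_mul (by norm_num) (by linarith)]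
      exact Real.log_le_log (by linarith) hly
    have e5 : |A * (Real.log (Real.log y) - Real.log (Real.log x))| ≤ |A| * Real.log 2 := by
      rw [abs_mul]
      refine mul_le_mul_of_nonneg_left ?_ (abs_nonneg _)
      rw [abs_of_nonneg (by linarith)]
      linarith
    have e6 : logP a b y - logP a b x = (logP a b y - A * Real.log (Real.log y)) -
        (logP a b x - A * Real.log (Real.log x)) +
        A * (Real.log (Real.log y) - Real.log (Real.log x)) := by ring
    rw [e6]
    have e7 := abs_sub (logP a b y - A * Real.log (Real.log y))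
      (logP a b x - A * Real.log (Real.log x))
    have e8 := abs_add_le ((logP a b y - A * Real.log (Real.log y)) -
        (logP a b x - A * Real.log (Real.log x)))
      (A * (Real.log (Real.log y) - Real.log (Real.log x)))
    linarith
  constructor
  · refine ⟨2 * C + |A| * Real.log 2, key.mono fun x hx y h1 h2 => ?_⟩
    have := (abs_le.mp (hx y h1 h2)).2
    linarith
  · refine ⟨2 * C + |A| * Real.log 2, key.mono fun x hx y h1 h2 => ?_⟩
    have := (abs_le.mp (hx y h1 h2)).1
    linarith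

open Pool.Agent.TH942.ES Pool.Agent.V11333.OneSide Pool.Agent.W263.BSD in
/-- the exact order from the bound for the shifted logarithm -/
theorem exact_of (a b : 𝓞 K) {r : ℕ} (h : ∃ M : ℝ, ∀ u, 0 < u →
    |st (fun v : {v // GoodV a b v} => Pool.Agent.H921R2.TatePole.nm v.1) (alV a b) u - r * ell u| ≤ M) :
    ExactOrder a b r := by
  obtain ⟨M, hM⟩ := h
  refine ⟨M + r, ?_⟩
  rw [exp_iff]
  filter_upwards [eventually_ge_atTop 2] with u hu
  have e0 := congrFun (logP_exp a b) u
  rw [Real.log_exp, e0]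
  have h1 := hM u (by linarith)
  have h2 := ell_le hu
  have h3 := log_le_ell (by linarith : 0 < u)
  have e1 : ∀ s : ℝ, s - r * Real.log u = (s - r * ell u) + r * (ell u - Real.log u) := fun s => by
    ring
  rw [e1]
  refine (abs_add_le _ _).trans (add_le_add h1 ?_)
  rw [abs_mul, Nat.abs_cast, abs_of_nonneg (by linarith)]
  have : (r : ℝ) * (ell u - Real.log u) ≤ r * 1 :=
    mul_le_mul_of_nonneg_left (by linarith) (Nat.cast_nonneg r)
  linarith

/-- **Theorem.** Let `K` be a number field, `a, b ∈ 𝓞_K`, `E : y² = x³ + a x + b`, and let `H` be an analytic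
continuation of `L(E, s)` along the real axis to a neighbourhood of every real `s ≥ 1`. Its order of vanishing
`r` at `s = 1` is finite, and:

(1) the following are equivalent: `P(x)` is of the exact order `(log x)^A` for some real `A`; `P(x)` is of
the exact order `(log x)^r`; upper doubling; `H` has no real zeros `s > 1` and lower doubling. They imply
that `L(E, s)` has a holomorphic continuation without zeros to `Re s > 1`.
(2) If `P(x) = O((log x)^A)`, then `L(E, s)` has a holomorphic continuation without zeros to `Re s > 1`,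
`∫_0^U log P(e^u) du ~ r U log U`, `r ≤ A`, and `∫_1^U |log P(e^u) - r log u| du = O(U)` if `A = r`.
(3) If `P(x) ≥ c (log x)^A` and `H` has no real zeros `s > 1`, the same is true with `r ≥ A`. -/
theorem result (a b : 𝓞 K) (H : ℂ → ℂ) (hH : IsRealContinuation a b H) :
    ∃ r : ℕ, analyticOrderAt H 1 = r ∧
    (List.TFAE [
      ∃ A : ℝ, ExactOrder a b A,
      ExactOrder a b r,
      UpperDoubling a b,
      (∀ x : ℝ, 1 < x → H x ≠ 0) ∧ LowerDoubling a b] ∧
      (ExactOrder a b r → NoZeros a b)) ∧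
    (∀ A : ℝ, UpperOrder a b A → NoZeros a b ∧ MeanValue a b r ∧ (r : ℝ) ≤ A ∧
      ((r : ℝ) = A → CloseInMean a b r)) ∧
    (∀ A : ℝ, LowerOrder a b A → (∀ x : ℝ, 1 < x → H x ≠ 0) →
      NoZeros a b ∧ MeanValue a b r ∧ A ≤ (r : ℝ) ∧ ((r : ℝ) = A → CloseInMean a b r)) := by
  obtain ⟨h1, h2⟩ := shift hH
  have E := Pool.Agent.TH942.ES.curve_sys a b
  set NN : {v // Pool.Agent.TH942.ES.GoodV a b v} → ℕ :=
    fun v => Pool.Agent.H921R2.TatePole.nm v.1 with hNN
  set H1 : ℂ → ℂ := fun s => H (s + 1) with hH1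
  have h2' : ∀ x : ℝ, 1 / 2 < x → H1 x = Pool.Agent.TH942.ES.LE NN
      (Pool.Agent.TH942.ES.alV a b) x := h2
  have h1' : ∀ x : ℝ, 0 < x → AnalyticAt ℂ H1 x := fun x hx => h1 x hx.le
  obtain ⟨r, hr⟩ := Pool.Agent.V11333.Central.order_nat E h1 h2'
  have hH10 : AnalyticAt ℂ H1 0 := by simpa using h1 0 le_rfl
  have hr0 := Pool.Agent.V11333.Central.ordZero_of hH10 hr
  have hHa : AnalyticAt ℂ H 1 := by simpa using hH.1 1 le_rfl
  have e0 : (fun u => logP a b (Real.exp u)) = Pool.Agent.V11333.OneSide.st NN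
      (Pool.Agent.TH942.ES.alV a b) := logP_exp a b
  have e0' : ∀ u, logP a b (Real.exp u) = Pool.Agent.V11333.OneSide.st NN
      (Pool.Agent.TH942.ES.alV a b) u := congrFun e0
  have hne : (∀ x : ℝ, 1 < x → H x ≠ 0) → ∀ x : ℝ, 0 < x → H1 x ≠ 0 := by
    intro h x hx
    have := h (x + 1) (by linarith)
    push_cast at this
    exact this
  have hne' : NoZeros a b → ∀ x : ℝ, 1 < x → H x ≠ 0 := by
    rintro ⟨G, h3, h4⟩ x hx
    have a1 : AnalyticOnNhd ℝ (fun w : ℝ => H (w : ℂ)) (Ioi 1) := fun w hw =>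
      Pool.Agent.V11333.OneSide.an_ofReal (hH.1 w (le_of_lt hw))
    have a2 : AnalyticOnNhd ℝ (fun w : ℝ => G (w : ℂ)) (Ioi 1) := fun w hw =>
      Pool.Agent.V11333.OneSide.an_ofReal (Pool.Agent.V11333.OneSide.an_of_half
        (fun z hz => (h3 z hz).1) (by simpa using hw))
    have a3 := a1.eqOn_of_preconnected_of_eventuallyEq a2 isPreconnected_Ioi
      (show (2 : ℝ) ∈ Ioi 1 by norm_num) (by
        filter_upwards [lt_mem_nhds (show (3 / 2 : ℝ) < 2 by norm_num)] with w hw
        exact (hH.2 w hw).unique (h4 w (by rwa [Complex.ofReal_re])))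
    rw [show H x = G x from a3 hx]
    exact (h3 x (by simpa using hx)).2
  have hord : ∀ {K u0 : ℝ}, 0 ≤ K → 1 ≤ u0 →
      ((∀ u v, u0 ≤ u → u ≤ v → v ≤ 2 * u →
        logP a b (Real.exp v) ≤ logP a b (Real.exp u) + K) ∨
      ((∀ x : ℝ, 1 < x → H x ≠ 0) ∧ ∀ u v, u0 ≤ u → u ≤ v → v ≤ 2 * u →
        logP a b (Real.exp u) ≤ logP a b (Real.exp v) + K)) →
      ExactOrder a b r ∧ NoZeros a b := by
    intro K u0 hK hu0 h
    simp only [e0'] at h
    obtain ⟨h5, h6⟩ := Pool.Agent.V11333.Central.sys_order E h1' h2' hr0 hK hu0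
      (h.imp_right fun h => ⟨hne h.1, h.2⟩)
    exact ⟨exact_of a b h6, noZeros_of a b h5⟩
  have h31 : UpperDoubling a b → ExactOrder a b r ∧ NoZeros a b := by
    intro h
    obtain ⟨K, u0, hK, hu0, h3⟩ := doubling h
    exact hord hK hu0 (Or.inl h3)
  refine ⟨r, (shift_order hHa r).mpr hr, ⟨?_, ?_⟩, ?_, ?_⟩
  · tfae_have 2 → 1 := fun h => ⟨r, h⟩
    tfae_have 1 → 3 := fun ⟨A, h⟩ => (doubling_of_order h).1
    tfae_have 3 → 2 := fun h => (h31 h).1
    tfae_have 2 → 4 := fun h =>
      ⟨hne' (h31 (doubling_of_order h).1).2, (doubling_of_order h).2⟩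
    tfae_have 4 → 2 := by
      rintro ⟨h3, C, hC⟩
      have hneg : ∃ C : ℝ, ∀ᶠ x : ℝ in atTop, ∀ y : ℝ, x ≤ y → y ≤ x ^ 2 →
          (fun x => -logP a b x) y ≤ (fun x => -logP a b x) x + C :=
        ⟨C, hC.mono fun x hx y h4 h5 => by
          have := hx y h4 h5
          simp only
          linarith⟩
      obtain ⟨K, u0, hK, hu0, h4⟩ := doubling (f := fun x => -logP a b x) hneg
      refine (hord hK hu0 (Or.inr ⟨h3, fun u v h5 h6 h7 => ?_⟩)).1
      have := h4 u v h5 h6 h7
      linarith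
    tfae_finish
  · exact fun h => (h31 (doubling_of_order h).1).2
  · intro A h
    rw [upperOrder_iff] at h
    simp only [e0'] at h
    obtain ⟨h3, h4, h5, h6⟩ := Pool.Agent.V11333.Central.sys_upper E h1' h2' hr0 h
    refine ⟨noZeros_of a b h3, ?_, h5, ?_⟩
    · unfold MeanValue
      simp only [e0']
      exact h4
    · unfold CloseInMean
      simp only [e0']
      exact h6
  · intro A h h'
    rw [lowerOrder_iff] at h
    simp only [e0'] at h
    obtain ⟨h3, h4, h5, h6⟩ := Pool.Agent.V11333.Central.sys_lower E h1' h2' (hne h') hr0 h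
    refine ⟨noZeros_of a b h3, ?_, h5, ?_⟩
    · unfold MeanValue
      simp only [e0']
      exact h4
    · unfold CloseInMean
      simp only [e0']
      exact h6

end Pool.Agent.Results.MP_1a91b9_nt.OneSidedNumberFields
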