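import Pool.Agent.Y698.SG.Fj
import Pool.Agent.Y698.SG.Ug
import Pool.Agent.Y698.SG.Uj
import Pool.Agent.Y698.SG.Dwc
import Pool.Agent.Y698.SG.Ebb
import Pool.Agent.V11291.Q49.ClsK

/-!
# The 2-part of the Birch and Swinnerton-Dyer conjecture for the twists of `X_0(49)` over finitely many
# fields at once: the exact joint proportion

`K_1, …, K_N` are number fields, `K_i` the subfield of degree `2 ^ m_i`, `m_i ≥ 1`, of `ℚ(ζ_{r_i})`, where
`r_i ≡ 1 mod 4` is a prime that is inert in `ℚ(√-7)` (the `r_i` may be equal); the `K_i` are totally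
real or totally complex. `E_D` is the quadratic twist by `D` of `X_0(49) : y² + x y = x³ - x² - 2 x - 1`.

The class consists of the squarefree numbers `D`, prime to the `r_i`, all of whose prime factors are `1`
modulo `4`, such that the prime factors of `D` which split in `ℚ(√-7)` split completely in all the `K_i`,
and those which are inert in `ℚ(√-7)` have Frobenius elements of order one or two in all the `K_i`. These
conditions are necessary for the order of `Ш(E_D/K_i)` predicted by the formula of Birch and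
Swinnerton-Dyer to be odd. The number of the prime factors of `D` is arbitrary.

* For every `D` of the class the 2-part of the conjecture holds for `E_D` over `K_i` with rank zero and
  `Ш[2^∞] = 0` if and only if `E_D(K_i)` is finite and `Ш(E_D/K_i)[2] = 0`, if and only if a matrix of
  quadratic and quartic symbols over `𝔽₂` which does not depend on `i` is nonsingular.
* For a proportion of exactly `c = ∏_{i ≥ 0} (1 - 2^{-(2 i + 1)}) = 0.4194...` of the `D` of the class
  the 2-part of the conjecture holds for `E_D` over all the fields `K_1, …, K_N`, with rank zero and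
  `Ш[2^∞] = 0`; more generally, for any finite set `T` of numbers of the class, this is so for all the
  twists `E_{L D}`, `L ∈ T`, at once for a proportion of exactly `c ^ #T`: these events are independent.
* The class has at least `b X (log X) ^ (κ - 1)` members up to `X`, `κ = 1 / (2 ∏ 2 ^ m_i)`.

The criterion for a single `D` and a single field is the theorem of `FormulaModTwoAllTwists` (helper698 and
its team: `Pool/Agent/Y698`). New here: the proportions. The count of the good `D` is made for general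
classes of primes (`V11291/GQ`), after the work of helper703 and its team for `X_0(14)`. It needs a bound
for the number of the products of primes of the class for which a given product of quadratic symbols is
trivial; the class is given by the kernel of a homomorphism from the residues to a finite abelian
group, and the bound follows from the product of the `L`-functions of its characters and of their
products with the quadratic symbol.
-/

set_option autoImplicit false

open NumberField NumberField.InfinitePlace IsDedekindDomain WeierstrassCurve MeasureTheory Filter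
  Topology

namespace Pool.Agent.Results.MP_1a91b9_nt.ProportionManyFields

open Pool.Agent.TH841.NF.D (Sha)
open Pool.Agent.TH841.SH.D (Pt)

/-- For `D ≡ 1 mod 4` the quadratic twist by `D` of the elliptic curve
`X_0(49) : y² + x y = x³ - x² - 2 x - 1`:
the curve `y² + x y = x³ - (3 D + 1) / 4 x² - 2 D² x - D³`. -/
def twist (D : ℕ) : WeierstrassCurve ℤ := ⟨1, -((3 * D + 1) / 4), 0, -2 * D ^ 2, -D ^ 3⟩

/-- The curve given by the equation of `W` over the ring `R`. -/
abbrev base (W : WeierstrassCurve ℤ) (R : Type) [CommRing R] : WeierstrassCurve R :=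
  W.map (Int.castRingHom R)

section

variable {K : Type} [Field K] [NumberField K]

/-- The equation is minimal at the finite place `v` of `K`: no change of variables over `K` that
keeps the coefficients integral at `v` decreases the order of the discriminant. -/
def MinimalAt (W : WeierstrassCurve K) (v : HeightOneSpectrum (𝓞 K)) : Prop :=
  ∀ C : VariableChange K, v.valuation K (C • W).a₁ ≤ 1 → v.valuation K (C • W).a₂ ≤ 1 →
    v.valuation K (C • W).a₃ ≤ 1 → v.valuation K (C • W).a₄ ≤ 1 → v.valuation K (C • W).a₆ ≤ 1 →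
    v.valuation K (C • W).Δ ≤ v.valuation K W.Δ

/-- `W⁰(K_v)`, the group of the points of `W` over the completion `K_v` with nonsingular reduction:
the point at infinity and the points `(x, y)` where `x` is not integral, or one of the partial
derivatives of `y² + a₁ x y + a₃ y - x³ - a₂ x² - a₄ x - a₆` is a unit at `(x, y)`.
Here `Pt W K_v` is the group of the points of `W` over `K_v`. -/
noncomputable def nonsing (W : WeierstrassCurve K) (v : HeightOneSpectrum (𝓞 K)) :
    AddSubgroup (Pt W (v.adicCompletion K)) :=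
  AddSubgroup.closure {P | ∀ x y h, P = Affine.Point.some x y h →
    1 < Valued.v x ∨
    Valued.v ((W.baseChange (v.adicCompletion K)).a₁ * y -
      (3 * x ^ 2 + 2 * (W.baseChange (v.adicCompletion K)).a₂ * x +
        (W.baseChange (v.adicCompletion K)).a₄)) = 1 ∨
    Valued.v (2 * y + (W.baseChange (v.adicCompletion K)).a₁ * x +
      (W.baseChange (v.adicCompletion K)).a₃) = 1}

/-- The Tamagawa number `c_v = [W(K_v) : W⁰(K_v)]` of a minimal equation. -/
noncomputable def c (W : WeierstrassCurve K) (v : HeightOneSpectrum (𝓞 K)) : ℕ :=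
  (nonsing W v).index

/-- The product of the Tamagawa numbers. -/
noncomputable def Tam (W : WeierstrassCurve K) : ℕ := ∏ᶠ v : HeightOneSpectrum (𝓞 K), c W v

/-- The 2-primary part of the Tate-Shafarevich group over `K`. -/
def Sha2 (W : WeierstrassCurve K) : Set (Sha W) := {x | ∃ n : ℕ, 2 ^ n • x = 0}

end

/-- `4 x³ + b₂ x² + 2 b₄ x + b₆ = (2 y + a₁ x + a₃)²`. -/
def cubic (W : WeierstrassCurve ℤ) {R : Type} [CommRing R] (x : R) : R :=
  4 * x ^ 3 + W.b₂ * x ^ 2 + 2 * W.b₄ * x + W.b₆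

/-- `∫_{W(ℝ)} |ω|` with `ω = dx / (2 y + a₁ x + a₃)`, as an integral over `x`: two real points lie
over each `x` with `cubic x > 0`. -/
noncomputable def realPeriod (W : WeierstrassCurve ℤ) : ℝ :=
  2 * ∫ x in {x : ℝ | 0 < cubic W x}, 1 / √(cubic W x)

/-- `2 ∫_{W(ℂ)} |ω ∧ ω̄|`, where `|ω ∧ ω̄| = du dv` in a local parameter `z = u + i v` with
`dz = ω`, as an integral over `x`: two points lie over a general `x`, and `|ω ∧ ω̄|` is the area
element of the plane of `x` divided by `|cubic x|`. -/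
noncomputable def complexPeriod (W : WeierstrassCurve ℤ) : ℝ := 2 * (2 * ∫ x : ℂ, 1 / ‖cubic W x‖)

/-- `Ω_{W/K}`. -/
noncomputable def Omega (K : Type) [Field K] [NumberField K] (W : WeierstrassCurve ℤ) : ℝ :=
  realPeriod W ^ nrRealPlaces K * complexPeriod W ^ nrComplexPlaces K

open Classical in
/-- The order of the torsion subgroup of `W(K)`. -/
noncomputable def torsOrder (K : Type) [Field K] [NumberField K] (W : WeierstrassCurve ℤ) : ℕ :=
  Nat.card (AddCommGroup.torsion (base W K).toAffine.Point)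

/-- The order of the Tate-Shafarevich group predicted by the formula, for a curve with an equation that
is minimal at all finite places and the value `l` of its L-function at `s = 1`:
`√|Disc K| #W(K)_tors² l / (Ω_{W/K} ∏ c_v)`. -/
noncomputable def anOrder (K : Type) [Field K] [NumberField K] (W : WeierstrassCurve ℤ) (l : ℂ) : ℂ :=
  l * (√|(discr K : ℝ)| : ℝ) * (torsOrder K W : ℂ) ^ 2 / ((Omega K W : ℝ) * (Tam (base W K) : ℂ))

open Classical in
/-- `1` if `m` is not a square modulo `p`, and `0` if it is -/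
noncomputable def nonsq (p m : ℕ) : ZMod 2 := if IsSquare (m : ZMod p) then 0 else 1

open Classical in
/-- `1` if `-7` is not a fourth power modulo `p`, and `0` if it is -/
noncomputable def nonfourth (p : ℕ) : ZMod 2 := if ∃ y : ZMod p, y ^ 4 = -7 then 0 else 1

open Classical in
/-- The prime factors of `D` which are inert in `ℚ(√-7)` (for the `D` of the class). -/
noncomputable def inert (D : ℕ) : Finset ℕ := D.primeFactors.filter fun p => ¬ IsSquare (-7 : ZMod p)

open Classical in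
/-- The prime factors of `D` which split in `ℚ(√-7)` (for the `D` of the class). -/
noncomputable def split (D : ℕ) : Finset ℕ := D.primeFactors.filter fun p => IsSquare (-7 : ZMod p)

/-- The matrix over the field with two elements, with rows and columns indexed by `split D`: the entry
at `(i, j)` is `nonsq i j` for `i ≠ j`, and the entry at `(i, i)` is the sum of `nonfourth i` and of
the `nonsq i l` for all the prime factors `l ≠ i` of `D`. -/
noncomputable def mat (D : ℕ) : Matrix (split D) (split D) (ZMod 2) := Matrix.of fun i j =>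
  if i = j then nonfourth i + ∑ q ∈ inert D, nonsq i q + ∑ p ∈ (split D).erase i, nonsq i p
  else nonsq i j

section

variable (K : Type) [Field K] [NumberField K] (D : ℕ)

/-- the group `E_D(K)` is finite and `Ш(E_D/K)` has no element of order two -/
def RankZeroShaTwo : Prop :=
  Finite (base (twist D) K).toAffine.Point ∧ ∀ x : Sha (base (twist D) K), x + x = 0 → x = 0

/-- The 2-part of the conjecture for `E_D` over `K`, with odd terms: `E_D(K)` is finite,
`Ш(E_D/K)[2^∞] = 0`, the equation is minimal at all finite places, there is an entire function which is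
equal to Mathlib's `L`-series of `E_D` over `K` for `Re s > 2`, its value at `1` is not zero, and the number
predicted for the order of `Ш(E_D/K)` is a unit at all the places above two. -/
def TwoPart : Prop :=
  Finite (base (twist D) K).toAffine.Point ∧ Sha2 (base (twist D) K) = {0} ∧
  (∀ v : HeightOneSpectrum (𝓞 K), MinimalAt (base (twist D) K) v) ∧
  ∃ Λ : ℂ → ℂ, Differentiable ℂ Λ ∧ (∀ s : ℂ, 2 < s.re → Λ s = (base (twist D) K).LSeries s) ∧
    Λ 1 ≠ 0 ∧ ∀ (Γ : Type) [LinearOrderedCommGroupWithZero Γ] (v : Valuation ℂ Γ), v 2 < 1 →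
      v (anOrder K (twist D) (Λ 1)) = 1

end

/-- the squarefree part of `L * D`, for squarefree `L` and `D`: the product of the primes that divide
exactly one of the two numbers -/
def tw (L D : ℕ) : ℕ := ∏ p ∈ symmDiff L.primeFactors D.primeFactors, p

/-- `c = ∏_{i ≥ 0} (1 - 2^{-(2 i + 1)})` -/
noncomputable def cc : ℝ := ∏' i : ℕ, (1 - (1 / 2 : ℝ) ^ (2 * i + 1))

section
variable {ι : Type} (r m : ι → ℕ)

/-- The class of the numbers `D`: squarefree, prime to the `r i`, all prime factors `1` modulo `4`;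
the prime factors which split in `ℚ(√-7)` are `2 ^ m i`-th powers modulo `r i` (they split completely
in `K i`), and the squares of the prime factors which are inert in `ℚ(√-7)` are `2 ^ m i`-th powers
modulo `r i`. -/
def Adm (D : ℕ) : Prop := Squarefree D ∧ ∀ p : ℕ, p.Prime → p ∣ D → p % 4 = 1 ∧ ∀ i, p ≠ r i ∧
  (IsSquare (-7 : ZMod p) → ∃ y : ZMod (r i), y ^ 2 ^ m i = (p : ZMod (r i))) ∧
  (¬ IsSquare (-7 : ZMod p) → ∃ y : ZMod (r i), y ^ 2 ^ m i = (p : ZMod (r i)) ^ 2)

open Classical in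
/-- the number of the `D ≤ X` of the class with `Q D` -/
noncomputable def count (Q : ℕ → Prop) (X : ℕ) : ℕ :=
  ((Finset.Icc 1 X).filter fun D => Adm r m D ∧ Q D).card

end

section proof

open Pool.Agent.Y698
open Pool.Agent.V11291.Q49 (AK BK FF Qs Ps)
open Pool.Agent.V11291.GQ (Cl)

lemma base_eq {D j : ℕ} (hj : D = 1 + 4 * j) (K : Type) [Field K] : base (twist D) K = AX K j :=
  twZ_map hj K

lemma cubic_eq {D j : ℕ} (hj : D = 1 + 4 * j) {R : Type} [CommRing R] (x : R) :
    cubic (twist D) x = psD (1 + 4 * j) x := by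
  have h1 : (3 * (D : ℤ) + 1) / 4 = 1 + 3 * j := by
    rw [hj]
    push_cast
    omega
  unfold cubic twist WeierstrassCurve.b₂ WeierstrassCurve.b₄ WeierstrassCurve.b₆ psD
  simp only
  rw [h1, hj]
  push_cast
  ring

lemma real_eq {D j : ℕ} (hj : D = 1 + 4 * j) : realPeriod (twist D) =
    ∫ x in {x : ℝ | 0 < psD (1 + 4 * j) x}, 2 / Real.sqrt (psD (1 + 4 * j) x) := by
  unfold realPeriod
  simp only [cubic_eq hj]
  rw [← integral_const_mul]
  congr 1
  funext x
  ring

lemma cplx_eq {D j : ℕ} (hj : D = 1 + 4 * j) : complexPeriod (twist D) =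
    ∫ x : ℂ, 4 / ‖psD (1 + 4 * j) x‖ := by
  unfold complexPeriod
  simp only [cubic_eq hj]
  rw [← mul_assoc, ← integral_const_mul]
  congr 1
  funext x
  ring

lemma an_eq {D j : ℕ} (hj : D = 1 + 4 * j) (K : Type) [Field K] [NumberField K] (l : ℂ) :
    anOrder K (twist D) l = Pool.Agent.Y698.SG.quoT K j l := by
  unfold anOrder torsOrder Omega
  rw [base_eq hj, real_eq hj, cplx_eq hj]
  unfold Pool.Agent.Y698.SG.quoT Pool.Agent.Y698.SG.tnum
  have hT : Tam (Pool.Agent.Y698.AX K j) = ∏ᶠ v, Pool.Agent.Y698.tam (Pool.Agent.Y698.AX K j) v := rfl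
  rw [hT]
  generalize (∏ᶠ v, Pool.Agent.Y698.tam (Pool.Agent.Y698.AX K j) v : ℕ) = t
  push_cast
  rfl

/-- one field -/
lemma one_field {r n : ℕ} (hr : r.Prime) (h4 : r % 4 = 1) (h7 : ¬ IsSquare (-7 : ZMod r))
    (hn : 1 ≤ n) (K : IntermediateField ℚ (CyclotomicField r ℚ))
    (hK : Module.finrank ℚ K = 2 ^ n) {D : ℕ} (hD : Squarefree D)
    (hp : ∀ p : ℕ, p.Prime → p ∣ D → p % 4 = 1 ∧ p ≠ r ∧
      (IsSquare (-7 : ZMod p) → ∃ y : ZMod r, y ^ 2 ^ n = (p : ZMod r)) ∧
      (¬ IsSquare (-7 : ZMod p) → ∃ y : ZMod r, y ^ 2 ^ n = (p : ZMod r) ^ 2)) :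
    (TwoPart K D ↔ RankZeroShaTwo K D) ∧ (RankZeroShaTwo K D ↔ (mat D).det ≠ 0) := by
  classical
  have : Fact r.Prime := ⟨hr⟩
  have hM : IsCyclotomicExtension {r} ℚ (CyclotomicField r ℚ) := Pool.Agent.Y698.cyc_inst r
  have hN : Normal ℚ K := (Pool.Agent.Y698.isGalK r K (M := CyclotomicField r ℚ)).to_normal
  have hir : Pool.Agent.Y698.Inq r := ⟨hr, h4, h7⟩
  have hQ : ∀ q ∈ inert D, Inq q ∧ q ≠ r := by
    intro q hq
    unfold inert at hq
    rw [Finset.mem_filter] at hq
    have h1 := Nat.prime_of_mem_primeFactors hq.1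
    have h2 := hp q h1 (Nat.dvd_of_mem_primeFactors hq.1)
    exact ⟨⟨h1, h2.1, hq.2⟩, h2.2.1⟩
  have hP : ∀ p ∈ split D, Pool.Agent.Y698.SG.Spl p := by
    intro p hq
    unfold split at hq
    rw [Finset.mem_filter] at hq
    have h1 := Nat.prime_of_mem_primeFactors hq.1
    exact ⟨h1, (hp p h1 (Nat.dvd_of_mem_primeFactors hq.1)).1, hq.2⟩
  have hm4 : D % 4 = 1 := by
    have h1 := Pool.Agent.V11291.GQ.prod4 D.primeFactors fun p hq =>
      ⟨Nat.prime_of_mem_primeFactors hq, (hp p (Nat.prime_of_mem_primeFactors hq)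
        (Nat.dvd_of_mem_primeFactors hq)).1⟩
    rwa [Nat.prod_primeFactors_of_squarefree hD] at h1
  obtain ⟨j, hj⟩ : ∃ j, D = 1 + 4 * j := ⟨D / 4, by omega⟩
  have hun : inert D ∪ split D = D.primeFactors := Pool.Agent.V11291.Q49.qs_ps _
  have hprod : ∏ q ∈ inert D ∪ split D, q = 1 + 4 * j := by
    rw [hun, Nat.prod_primeFactors_of_squarefree hD, hj]
  have hgp : ∀ q ∈ inert D ∪ split D, Pool.Agent.Y698.SG.Gp q ∧ q ≠ r := by
    intro q hq
    rcases Finset.mem_union.1 hq with h | h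
    · exact ⟨Pool.Agent.Y698.SG.Gp.of_inq (hQ q h).1, (hQ q h).2⟩
    · refine ⟨Pool.Agent.Y698.SG.Gp.of_spl (hP q h), ?_⟩
      rintro rfl
      exact h7 (hP q h).sq
  have hmat : mat D = Pool.Agent.Y698.SG.mat (inert D) (split D) := rfl
  have hcond : ((∀ q ∈ inert D, ∃ y : ZMod r, y ^ 2 ^ n = (q : ZMod r) ^ 2) ∧
      (∀ p ∈ split D, ∃ y : ZMod r, y ^ 2 ^ n = (p : ZMod r)) ∧
      (Pool.Agent.Y698.SG.mat (inert D) (split D)).det ≠ 0) ↔ (mat D).det ≠ 0 := by
    rw [hmat]
    refine ⟨fun h => h.2.2, fun h => ⟨fun q hq => ?_, fun q hq => ?_, h⟩⟩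
    · unfold inert at hq
      rw [Finset.mem_filter] at hq
      exact (hp q (Nat.prime_of_mem_primeFactors hq.1)
        (Nat.dvd_of_mem_primeFactors hq.1)).2.2.2 hq.2
    · unfold split at hq
      rw [Finset.mem_filter] at hq
      exact (hp q (Nat.prime_of_mem_primeFactors hq.1)
        (Nat.dvd_of_mem_primeFactors hq.1)).2.2.1 hq.2
  have heq := Pool.Agent.Y698.SG.equiv_all (CyclotomicField r ℚ) K hK hn hir hQ hP hprod
  obtain ⟨Λ, h1, h2, h3⟩ := Pool.Agent.Y698.SG.level_all (CyclotomicField r ℚ) K hK hn hir hQ hP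
    hprod
  have hz : RankZeroShaTwo K D ↔ (mat D).det ≠ 0 := by
    unfold RankZeroShaTwo
    rw [base_eq hj, ← heq, hcond]
  refine ⟨⟨fun h => ⟨h.1, fun x hx => ?_⟩, fun hR => ?_⟩, hz⟩
  · have h5 : x ∈ Sha2 (base (twist D) K) := ⟨1, by rw [pow_one, two_smul]; exact hx⟩
    rw [h.2.1] at h5
    exact h5
  · have hdet := hz.1 hR
    have hC := hcond.2 hdet
    obtain ⟨k, rfl⟩ : ∃ k, n = k + 1 := ⟨n - 1, by omega⟩
    have hdt : Pool.Agent.Y698.SG.Dt r (k + 1) (inert D) (split D) :=
      ⟨hn, hir, fun q hq => ⟨(hQ q hq).1, (hQ q hq).2, hC.1 q hq⟩,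
        fun p hp => ⟨hP p hp, hC.2.1 p hp⟩, hC.2.2⟩
    have hz1 : ∀ (Γ : Type) [LinearOrderedCommGroupWithZero Γ] (v : Valuation ℂ Γ), v 2 < 1 →
        v (Pool.Agent.Y698.SG.quoT K j (Λ 1)) = 1 := fun Γ _ v hv => ((h3 Γ v hv).2).2 hC
    refine ⟨hR.1, ?_, fun v => ?_, Λ, h1, fun s hs => by rw [h2 s hs, base_eq hj], ?_, ?_⟩
    · rw [base_eq hj]
      apply Set.eq_singleton_iff_unique_mem.2
      refine ⟨⟨0, smul_zero _⟩, ?_⟩
      rintro x ⟨l, hl⟩
      exact Pool.Agent.Y698.SG.sha_two_powE (CyclotomicField r ℚ) K hK hdt hprod x l hl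
    · rw [base_eq hj]
      exact Pool.Agent.Y698.SG.minimal_E (CyclotomicField r ℚ) K h7 hgp hprod v
    · intro h0
      refine Pool.Agent.Y698.SG.exists_val2 fun Γ _ v hv => ?_
      have h5 := hz1 Γ v hv
      rw [h0] at h5
      unfold Pool.Agent.Y698.SG.quoT at h5
      rw [zero_mul, zero_mul, zero_div, map_zero] at h5
      exact zero_ne_one h5
    · intro Γ _ v hv
      rw [an_eq hj]
      exact hz1 Γ v hv

section
variable {ι : Type} [Fintype ι] {r m : ι → ℕ}

open Classical in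
/-- the primes -/
noncomputable def FS (r : ι → ℕ) : Finset ℕ := Finset.univ.image r

open Classical in
/-- the exponents -/
noncomputable def nS (r m : ι → ℕ) (ρ : ℕ) : ℕ := (Finset.univ.filter fun i => r i = ρ).sup m

lemma pow_up {ρ a b : ℕ} (hab : a ≤ b) {x : ZMod ρ} (h : ∃ y : ZMod ρ, y ^ 2 ^ b = x) :
    ∃ y : ZMod ρ, y ^ 2 ^ a = x := by
  obtain ⟨y, hy⟩ := h
  refine ⟨y ^ 2 ^ (b - a), ?_⟩
  rw [← pow_mul, ← pow_add, Nat.sub_add_cancel hab]
  exact hy

lemma all_iff (x : ∀ ρ : ℕ, ZMod ρ) :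
    (∀ ρ ∈ FS r, ∃ y : ZMod ρ, y ^ 2 ^ nS r m ρ = x ρ) ↔
      ∀ i, ∃ y : ZMod (r i), y ^ 2 ^ m i = x (r i) := by
  classical
  constructor
  · intro h i
    refine pow_up ?_ (h (r i) (Finset.mem_image_of_mem r (Finset.mem_univ i)))
    exact Finset.le_sup (f := m) (Finset.mem_filter.2 ⟨Finset.mem_univ i, rfl⟩)
  · intro h ρ hρ
    obtain ⟨i0, -, hi0⟩ := Finset.mem_image.1 hρ
    obtain ⟨i, hi, hs⟩ := Finset.exists_mem_eq_sup (Finset.univ.filter fun i => r i = ρ)
      ⟨i0, Finset.mem_filter.2 ⟨Finset.mem_univ _, hi0⟩⟩ m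
    have hri := (Finset.mem_filter.1 hi).2
    subst hri
    unfold nS
    rw [hs]
    exact h i

lemma adm_iff (hF : FF (FS r)) (D : ℕ) :
    Adm r m D ↔ Squarefree D ∧ Cl (AK (FS r) (nS r m)) (BK (FS r) (nS r m)) D.primeFactors := by
  classical
  refine and_congr_right fun hD => ?_
  have kA : ∀ p : ℕ, (∀ ρ ∈ FS r, ∃ y : ZMod ρ, y ^ 2 ^ nS r m ρ = (p : ZMod ρ)) ↔
      ∀ i, ∃ y : ZMod (r i), y ^ 2 ^ m i = (p : ZMod (r i)) := fun p => all_iff fun ρ => (p : ZMod ρ)
  have kB : ∀ p : ℕ, (∀ ρ ∈ FS r, ∃ y : ZMod ρ, y ^ 2 ^ nS r m ρ = (p : ZMod ρ) ^ 2) ↔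
      ∀ i, ∃ y : ZMod (r i), y ^ 2 ^ m i = (p : ZMod (r i)) ^ 2 :=
    fun p => all_iff fun ρ => (p : ZMod ρ) ^ 2
  have kF : ∀ p : ℕ, p ∈ FS r ↔ ∃ i, r i = p := by
    intro p
    unfold FS
    rw [Finset.mem_image]
    exact ⟨fun ⟨i, _, h⟩ => ⟨i, h⟩, fun ⟨i, h⟩ => ⟨i, Finset.mem_univ i, h⟩⟩
  constructor
  · intro h p hp
    have h1 := Nat.prime_of_mem_primeFactors hp
    obtain ⟨h2, h3⟩ := h p h1 (Nat.dvd_of_mem_primeFactors hp)
    by_cases h7 : IsSquare (-7 : ZMod p)
    · exact Or.inl ⟨h1, h2, h7, (kA p).2 fun i => (h3 i).2.1 h7⟩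
    · refine Or.inr ⟨h1, h2, h7, fun hpF => ?_, (kB p).2 fun i => (h3 i).2.2 h7⟩
      obtain ⟨i, hi⟩ := (kF p).1 hpF
      exact (h3 i).1 hi.symm
  · intro h p hp hd
    rcases h p (Nat.mem_primeFactors.2 ⟨hp, hd, hD.ne_zero⟩) with h1 | h1
    · refine ⟨h1.2.1, fun i => ⟨?_, fun _ => (kA p).1 h1.2.2.2 i, fun h7 => absurd h1.2.2.1 h7⟩⟩
      rintro rfl
      exact (hF _ ((kF _).2 ⟨i, rfl⟩)).2.2 h1.2.2.1
    · refine ⟨h1.2.1, fun i => ⟨?_, fun h7 => absurd h7 h1.2.2.1, fun _ => (kB p).1 h1.2.2.2.2 i⟩⟩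
      rintro rfl
      exact h1.2.2.2.1 ((kF _).2 ⟨i, rfl⟩)

lemma count_eq (Q R : ℕ → Prop) [DecidablePred R] (h : ∀ D, R D ↔ Adm r m D ∧ Q D) (X : ℕ) :
    ((Finset.Icc 1 X).filter R).card = count r m Q X := by
  classical
  unfold count
  congr 1
  ext D
  rw [Finset.mem_filter, Finset.mem_filter, h]

end

end proof

/-- **Main theorem.** Let `K i` be the subfield of degree `2 ^ m i`, `m i ≥ 1`, of `ℚ(ζ_{r i})`, for the
`i` in a nonempty finite set, where `r i ≡ 1 mod 4` is a prime inert in `ℚ(√-7)`.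
(1) For all `D` of the class and all `i`, the 2-part of the conjecture holds for `E_D` over `K i` with odd
terms if and only if `E_D(K i)` is finite and `Ш(E_D/K i)[2] = 0`, if and only if `mat D` is nonsingular.
(2) For every finite set `T` of numbers of the class, the proportion of the `D` of the class such that
for all `L ∈ T` and all `i` the 2-part of the conjecture holds for `E_{L D}` over `K i` is exactly
`c ^ #T`, with `c = ∏_{i ≥ 0} (1 - 2^{-(2 i + 1)})`, `0.4194 < c < 0.4195`.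
(3) The number of the `D ≤ X` of the class is at least a positive constant times
`X (log X) ^ (κ - 1)`, `κ = 1 / (2 ∏ 2 ^ m i)`. -/
theorem result {ι : Type} [Fintype ι] [Nonempty ι] (r m : ι → ℕ)
    (hr : ∀ i, (r i).Prime ∧ r i % 4 = 1 ∧ ¬ IsSquare (-7 : ZMod (r i))) (hm : ∀ i, 1 ≤ m i)
    (K : ∀ i, IntermediateField ℚ (CyclotomicField (r i) ℚ))
    (hK : ∀ i, Module.finrank ℚ (K i) = 2 ^ m i) :
    (∀ D : ℕ, Adm r m D → ∀ i, (TwoPart (K i) D ↔ RankZeroShaTwo (K i) D) ∧
      (RankZeroShaTwo (K i) D ↔ (mat D).det ≠ 0)) ∧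
    (∀ T : Finset ℕ, (∀ L ∈ T, Adm r m L) →
      Tendsto (fun X : ℕ => (count r m (fun D => ∀ L ∈ T, ∀ i, TwoPart (K i) (tw L D)) X : ℝ) /
        (count r m (fun _ => True) X : ℝ)) atTop (𝓝 (cc ^ T.card))) ∧
    (0.4194 < cc ∧ cc < 0.4195) ∧
    ∃ (b : ℝ) (X₀ : ℕ), 0 < b ∧ ∀ X : ℕ, X₀ ≤ X →
      b * X * (Real.log X) ^ (-1 + 1 / (2 * ∏ i, 2 ^ m i) : ℝ) ≤
        (count r m (fun _ => True) X : ℝ) := by
  classical
  have hF : Pool.Agent.V11291.Q49.FF (FS r) := by
    intro ρ hρ
    obtain ⟨i, -, rfl⟩ := Finset.mem_image.1 hρ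
    exact hr i
  have h1 : ∀ D : ℕ, Adm r m D → ∀ i, (TwoPart (K i) D ↔ RankZeroShaTwo (K i) D) ∧
      (RankZeroShaTwo (K i) D ↔ (mat D).det ≠ 0) := fun D hD i =>
    one_field (hr i).1 (hr i).2.1 (hr i).2.2 (hm i) (K i) (hK i) hD.1 fun p hp hd =>
      ⟨(hD.2 p hp hd).1, (hD.2 p hp hd).2 i⟩
  refine ⟨h1, fun T hT => ?_, Pool.Agent.Y948.CQ.t_C2.2.2.2, ?_⟩
  · obtain ⟨PP, hPP⟩ : ∃ PP : ℕ → Prop, ∀ D, PP D ↔ ∀ i, TwoPart (K i) D := ⟨_, fun _ => Iff.rfl⟩
    have h := Pool.Agent.V11291.Q49.den_K hF T (fun L hL => (adm_iff hF L).1 (hT L hL)) PP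
      fun D h2 h3 => ?_
    · refine h.congr fun X => ?_
      rw [count_eq (fun D => ∀ L ∈ T, ∀ i, TwoPart (K i) (tw L D)) _
          (fun D => by rw [adm_iff hF]; simp only [hPP]; rfl) X,
        count_eq (fun _ => True) _ (fun D => by rw [adm_iff hF]; tauto) X]
    · have hD : Adm r m D := (adm_iff hF D).2 ⟨h2, h3⟩
      rw [Pool.Agent.V11291.Q49.gd_matK h3, hPP]
      constructor
      · intro h
        have h5 := h1 D hD (Classical.arbitrary ι)
        exact h5.2.1 (h5.1.1 (h _))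
      · intro h i
        exact (h1 D hD i).1.2 ((h1 D hD i).2.2 h)
  · obtain ⟨b, X₀, hb, h⟩ := Pool.Agent.V11291.Q49.low_K (n := nS r m) hF
    refine ⟨b, max X₀ 3, hb, fun X hX => ?_⟩
    have h2 := h X ((le_max_left _ _).trans hX)
    have hX3 : 3 ≤ X := (le_max_right _ _).trans hX
    rw [count_eq (fun _ => True) _ (fun D => by rw [adm_iff hF]; tauto) X] at h2
    refine le_trans ?_ h2
    have hlog1 : 1 ≤ Real.log X := by
      rw [Real.le_log_iff_exp_le (by exact_mod_cast (by omega : 0 < X))]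
      have h3 := Real.exp_one_lt_d9
      have h4 : (3 : ℝ) ≤ X := by exact_mod_cast hX3
      linarith
    refine mul_le_mul_of_nonneg_left (Real.rpow_le_rpow_of_exponent_le hlog1 ?_) (by positivity)
    have h3 : ∏ ρ ∈ FS r, 2 ^ nS r m ρ ≤ ∏ i, 2 ^ m i := by
      have h4 : ∏ i, 2 ^ m i = ∏ ρ ∈ FS r, ∏ i ∈ Finset.univ.filter (fun i => r i = ρ), 2 ^ m i :=
        (Finset.prod_fiberwise_of_maps_to
          (fun i _ => Finset.mem_image_of_mem r (Finset.mem_univ i)) _).symm
      rw [h4]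
      refine Finset.prod_le_prod' fun ρ _ => ?_
      rw [Finset.prod_pow_eq_pow_sum]
      refine Nat.pow_le_pow_right (by norm_num) ?_
      unfold nS
      refine Finset.sup_le fun i hi => ?_
      exact Finset.single_le_sum (f := m) (fun _ _ => Nat.zero_le _) hi
    have h4 : (∏ ρ ∈ FS r, (2 : ℝ) ^ nS r m ρ) ≤ ∏ i, (2 : ℝ) ^ m i := by exact_mod_cast h3
    have h5 : (0 : ℝ) < ∏ ρ ∈ FS r, (2 : ℝ) ^ nS r m ρ := Finset.prod_pos fun _ _ => by positivity
    have h6 : 1 / (2 * ∏ i, (2 : ℝ) ^ m i) ≤ 1 / (2 * ∏ ρ ∈ FS r, (2 : ℝ) ^ nS r m ρ) :=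
      one_div_le_one_div_of_le (by positivity) (by linarith)
    linarith

end Pool.Agent.Results.MP_1a91b9_nt.ProportionManyFields
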