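import Pool.Agent.Results.MP_1a91b9_nt.ProportionManyFields
import Pool.Agent.V1176.SQ.Ratio
import Pool.Agent.V1176.SQ.Low

/-!
# The 2-part of the Birch and Swinnerton-Dyer conjecture over number fields for the twists of `X_0(49)`
# by the numbers of sparse sequences: the exact joint proportions

The fields, the class of the numbers `D`, the curves `E_D` (the twists of `X_0(49)`) and the property
`TwoPart (K) (D)` are those of the file `ProportionManyFields` of this problem: `K_i`, `i < n`, is the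
subfield of degree `2 ^ m_i`, `m_i ≥ 1`, of `ℚ(ζ_{r_i})`, where `r_i ≡ 1 mod 4` is a prime that is inert in
`ℚ(√-7)`, and the class consists of the squarefree `D`, prime to the `r_i`, all of whose prime factors are
`1` modulo `4` and satisfy a splitting condition in the fields `K_i`.

That file finds the proportion `c ^ #T`, `c = ∏_{j ≥ 0} (1 - 2^{-(2 j + 1)}) = 0.4194...`, of the `D` up to
`X` of the class such that the 2-part of the conjecture (with rank zero and `Ш[2^∞] = 0`) holds for all the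
curves `E_{L D}`, `L ∈ T`, over all the fields `K_i`.

Here `D` runs through a sequence of density zero. Let `p > 1` be a real number. There is a set `E` of real
numbers of Hausdorff dimension less than `1` such that for all `α > 0` outside `E`, for all choices of the
`r_i`, `m_i` and `K_i`, and for all finite sets `T` of numbers of the class: for at least `κ N / log N` of
the `n ≤ N` the number `⌊α n ^ p⌋` is in the class, and the proportion of those for which the 2-part of the
conjecture holds for all the twists `E_{L D}`, `L ∈ T`, `D = ⌊α n ^ p⌋`, over all the fields `K_i` tends to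
`c ^ #T`.
-/

set_option autoImplicit false

open Filter Topology

namespace Pool.Agent.Results.MP_1a91b9_nt.SparseSequences

open Pool.Agent.Results.MP_1a91b9_nt.ProportionManyFields (Adm TwoPart tw cc count)

/-- The number of the `n` with `1 ≤ n ≤ N` for which the number `⌊α n ^ p⌋` has the property `Q`. -/
noncomputable def along (α p : ℝ) (Q : ℕ → Prop) (N : ℕ) : ℕ :=
  Nat.card {n : ℕ // 1 ≤ n ∧ n ≤ N ∧ Q ⌊α * (n : ℝ) ^ p⌋₊}

theorem fin_if (n : ℕ) : Finite (IntermediateField ℚ (CyclotomicField n ℚ)) := by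
  have : FiniteDimensional ℚ (CyclotomicField n ℚ) :=
    haveI : Polynomial.IsSplittingField ℚ (CyclotomicField n ℚ) (Polynomial.cyclotomic n ℚ) :=
      Polynomial.IsSplittingField.splittingField _
    Polynomial.IsSplittingField.finiteDimensional (CyclotomicField n ℚ) (Polynomial.cyclotomic n ℚ)
  exact Field.finite_intermediateField_of_exists_primitive_element ℚ _
    (Field.exists_primitive_element ℚ _)

/-- the fields and the set of the twists -/
abbrev Ix : Type := Σ (n : ℕ) (r : Fin n → ℕ) (_ : Fin n → ℕ),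
  (∀ i : Fin n, IntermediateField ℚ (CyclotomicField (r i) ℚ)) × Finset ℕ

/-- **The exact joint proportions in sparse sequences.** -/
theorem result (p : ℝ) (hp : 1 < p) :
    (0.4194 < cc ∧ cc < 0.4195) ∧
    ∃ E : Set ℝ, dimH E < 1 ∧ ∀ α : ℝ, 0 < α → α ∉ E → ∀ (n : ℕ) (r m : Fin n → ℕ), 1 ≤ n →
      (∀ i, (r i).Prime ∧ r i % 4 = 1 ∧ ¬ IsSquare (-7 : ZMod (r i))) → (∀ i, 1 ≤ m i) →
      ∀ K : ∀ i, IntermediateField ℚ (CyclotomicField (r i) ℚ),
      (∀ i, Module.finrank ℚ (K i) = 2 ^ m i) →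
      (∃ (κ : ℝ) (N₀ : ℕ), 0 < κ ∧ ∀ N : ℕ, N₀ ≤ N →
        κ * N / Real.log N ≤ (along α p (Adm r m) N : ℝ)) ∧
      ∀ T : Finset ℕ, (∀ L ∈ T, Adm r m L) →
        Tendsto (fun N : ℕ =>
          (along α p (fun D => Adm r m D ∧ ∀ L ∈ T, ∀ i, TwoPart (K i) (tw L D)) N : ℝ) /
          (along α p (Adm r m) N : ℝ)) atTop (𝓝 (cc ^ T.card)) := by
  have hfin := fin_if
  have hcount : Countable Ix := inferInstance
  have hcc : 0.4194 < cc ∧ cc < 0.4195 := Pool.Agent.Y948.CQ.t_C2.2.2.2
  obtain ⟨E, hE, h⟩ := Pool.Agent.V1176.SQ.ratioS p hp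
    (fun (x : Ix) D => Adm x.2.1 x.2.2.1 D ∧ ∀ L ∈ x.2.2.2.2, ∀ i, TwoPart (x.2.2.2.1 i) (tw L D))
    (fun (x : Ix) D => Adm x.2.1 x.2.2.1 D)
  refine ⟨hcc, E, hE, fun α hα hαE n r m hn hr hm K hK => ?_⟩
  haveI : Nonempty (Fin n) := ⟨⟨0, hn⟩⟩
  obtain ⟨-, hlaw, -, b, X₀, hb, hlow⟩ :=
    Pool.Agent.Results.MP_1a91b9_nt.ProportionManyFields.result r m hr hm K hK
  have e1 : ∀ (Q : ℕ → Prop) (X : ℕ), count r m Q X =
      Nat.card {t : ℕ // 1 ≤ t ∧ t ≤ X ∧ (Adm r m t ∧ Q t)} := by
    intro Q X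
    classical
    unfold count
    rw [← Nat.subtype_card]
    intro t
    rw [Finset.mem_filter, Finset.mem_Icc, and_assoc]
  have e2 : ∀ X : ℕ, count r m (fun _ => True) X = Nat.card {t : ℕ // 1 ≤ t ∧ t ≤ X ∧ Adm r m t} := by
    intro X
    rw [e1]
    simp only [and_true]
  have hlow' := Pool.Agent.V1176.SQ.low_rpow (s := -1 + 1 / (2 * ∏ i, 2 ^ m i)) hb (by
    have : (0 : ℝ) ≤ 1 / (2 * ∏ i, 2 ^ m i) := by positivity
    linarith) (f := fun X => (Nat.card {t : ℕ // 1 ≤ t ∧ t ≤ X ∧ Adm r m t} : ℝ))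
    fun X hX => by
      rw [← e2]
      exact hlow X hX
  have hT : ∀ T : Finset ℕ, (∀ L ∈ T, Adm r m L) → _ := fun T hT' =>
    h α hα hαE ⟨n, r, m, K, T⟩ b (cc ^ T.card) (max X₀ 3) hb hlow' ((hlaw T hT').congr fun X => by
      rw [e1, e2])
  refine ⟨?_, fun T hT' => (hT T hT').2⟩
  obtain ⟨κ, hκ, N₀, h1⟩ := (hT ∅ (by simp)).1
  exact ⟨κ, N₀, hκ, h1⟩

end Pool.Agent.Results.MP_1a91b9_nt.SparseSequences
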